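import Pool.Agent.H3MA.Bridge

set_option autoImplicit false

/-!
MP_81a4d5_co, a strictly stronger form of Q1: the reduced Solomon-Terao polynomial of every
*multiarrangement* `(A, m)` over every field has degree `|m| = ∑ m(H)` and leading coefficient
`1`.  (Q1 is the case where all multiplicities are `1`.)
-/

namespace Pool.Agent.Results.MP_81a4d5_co.Multiarrangement

universe u

open Pool.Agent.H3MA in
/-- **Every multiarrangement.**  Let `K` be a field, `A` a finite set of pairwise non-proportional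
nonzero linear forms on `K^ℓ`, and `m` any multiplicity (with values in `ℕ`).  Let `D^p(A, m)` be
the module of `p`-vector fields `θ` over `S = K[x_1, …, x_ℓ]` with
`α^{m(α)} ∣ θ(f_1, …, f_p)` whenever some argument `f_j` is `α ∈ A`.  Then
`∑_p (-1)^p dim_K D^p(A, m)_{n - p}`, the coefficient of `x^n` in
`∑_p Hilb(D^p(A, m); x) (-x)^p`, is `1` for `n = |m| = ∑_{α ∈ A} m(α)` and `0` for every
`n > |m|`. -/
theorem result :
    ∀ (K : Type u) [Field K] (ℓ : ℕ) (A : Finset (Fin ℓ → K)) (m : (Fin ℓ → K) → ℕ),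
      (∀ a ∈ A, a ≠ 0) →
      (∀ a ∈ A, ∀ b ∈ A, a ≠ b → LinearIndependent K ![a, b]) →
      ∀ n : ℕ, ∑ a ∈ A, m a ≤ n →
        (∑ p ∈ Finset.range (ℓ + 1),
          if p ≤ n then
            (-1 : ℤ) ^ p *
              ((Module.finrank K
                (Submodule.span K
                  {c : (Fin p → Fin ℓ) → MvPolynomial (Fin ℓ) K |
                    (∀ i : Fin p → Fin ℓ, ¬ StrictMono i → c i = 0) ∧
                    (∀ i : Fin p → Fin ℓ, (c i).IsHomogeneous (n - p)) ∧
                    ∀ a ∈ A, ∀ f : Fin p → MvPolynomial (Fin ℓ) K, ∀ j : Fin p,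
                      f j = (∑ k : Fin ℓ, MvPolynomial.C (a k) * MvPolynomial.X k) →
                      (∑ k : Fin ℓ, MvPolynomial.C (a k) * MvPolynomial.X k) ^ m a ∣
                        ∑ i : Fin p → Fin ℓ,
                          c i * (Matrix.of fun r s =>
                            MvPolynomial.pderiv (i r) (f s)).det}) : ℕ) : ℤ)
          else 0) = if n = ∑ a ∈ A, m a then 1 else 0 := by
  classical
  intro K _ ℓ A₀ m₀ hA₀ hA₂ n hn
  let _inst : Mult K ℓ := ⟨fun a => max 1 (m₀ a), fun a => le_max_left _ _⟩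
  have hmu : ∀ a : Fin ℓ → K, m₀ a ≠ 0 → mu a = m₀ a := by
    intro a ha
    show max 1 (m₀ a) = m₀ a
    omega
  set A : Finset (Fin ℓ → K) := A₀.filter (fun a => m₀ a ≠ 0)
  have hA : ∀ a ∈ A, a ≠ 0 := fun a ha => hA₀ a (Finset.mem_filter.1 ha).1
  have hA2 : ∀ a ∈ A, ∀ b ∈ A, a ≠ b → LinearIndependent K ![a, b] := fun a ha b hb =>
    hA₂ a (Finset.mem_filter.1 ha).1 b (Finset.mem_filter.1 hb).1
  have hwt : wt A = ∑ a ∈ A₀, m₀ a := by
    unfold wt
    rw [Finset.sum_congr rfl (fun a ha => hmu a (Finset.mem_filter.1 ha).2)]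
    exact Finset.sum_filter_ne_zero A₀
  have hn' : wt A ≤ n := by rw [hwt]; exact hn
  have hmain := EF_DD hA hA2 hn'
  have hEF : EF ((DD A).restrictScalars K) n =
      ∑ p ∈ Finset.range (n + 1), (-1 : ℤ) ^ p *
        (pc ((DD A).restrictScalars K) p (n - p) : ℤ) := by
    unfold EF
    rw [Finset.Nat.sum_antidiagonal_eq_sum_range_succ
      (f := fun p j => (-1 : ℤ) ^ p * (pc ((DD A).restrictScalars K) p j : ℤ))]
  have hzero : ∀ p j : ℕ, ℓ < p → pc ((DD A).restrictScalars K) p j = 0 := by
    intro p j hp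
    unfold pc
    have : (DD A).restrictScalars K ⊓ GP K ℓ p j = ⊥ := by
      rw [eq_bot_iff]
      intro c hc
      rw [Submodule.mem_bot]
      funext I
      apply hc.2.1 I
      have : I.card ≤ ℓ := by simpa using Finset.card_le_univ I
      omega
    rw [this]
    exact finrank_bot K _
  have hset : ∀ p j : ℕ,
      {c : (Fin p → Fin ℓ) → MvPolynomial (Fin ℓ) K |
        (∀ i : Fin p → Fin ℓ, ¬ StrictMono i → c i = 0) ∧
        (∀ i : Fin p → Fin ℓ, (c i).IsHomogeneous j) ∧
        ∀ a ∈ A₀, ∀ f : Fin p → MvPolynomial (Fin ℓ) K, ∀ j : Fin p,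
          f j = (∑ k : Fin ℓ, MvPolynomial.C (a k) * MvPolynomial.X k) →
          (∑ k : Fin ℓ, MvPolynomial.C (a k) * MvPolynomial.X k) ^ m₀ a ∣
            ∑ i : Fin p → Fin ℓ,
              c i * (Matrix.of fun r s => MvPolynomial.pderiv (i r) (f s)).det} =
      FS A p j := by
    intro p j
    ext c
    constructor
    · rintro ⟨h1, h2, h3⟩
      refine ⟨h1, h2, fun a ha f j hf => ?_⟩
      have ha' := Finset.mem_filter.1 ha
      rw [hmu a ha'.2]
      exact h3 a ha'.1 f j hf
    · rintro ⟨h1, h2, h3⟩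
      refine ⟨h1, h2, fun a ha f j hf => ?_⟩
      by_cases h0 : m₀ a = 0
      · rw [h0, pow_zero]
        exact one_dvd _
      · have h4 := h3 a (Finset.mem_filter.2 ⟨ha, h0⟩) f j hf
        rw [hmu a h0] at h4
        exact h4
  have hterm : ∀ p : ℕ, (if p ≤ n then
            (-1 : ℤ) ^ p *
              ((Module.finrank K
                (Submodule.span K
                  {c : (Fin p → Fin ℓ) → MvPolynomial (Fin ℓ) K |
                    (∀ i : Fin p → Fin ℓ, ¬ StrictMono i → c i = 0) ∧
                    (∀ i : Fin p → Fin ℓ, (c i).IsHomogeneous (n - p)) ∧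
                    ∀ a ∈ A₀, ∀ f : Fin p → MvPolynomial (Fin ℓ) K, ∀ j : Fin p,
                      f j = (∑ k : Fin ℓ, MvPolynomial.C (a k) * MvPolynomial.X k) →
                      (∑ k : Fin ℓ, MvPolynomial.C (a k) * MvPolynomial.X k) ^ m₀ a ∣
                        ∑ i : Fin p → Fin ℓ,
                          c i * (Matrix.of fun r s =>
                            MvPolynomial.pderiv (i r) (f s)).det}) : ℕ) : ℤ)
          else 0) = if p ≤ n then (-1 : ℤ) ^ p *
            (pc ((DD A).restrictScalars K) p (n - p) : ℤ) else 0 := by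
    intro p
    split_ifs
    · rw [hset, finrank_FS A p (n - p)]
    · rfl
  rw [Finset.sum_congr rfl (fun p _ => hterm p)]
  rw [← hwt, ← hmain, hEF]
  rw [← Finset.sum_filter]
  apply Finset.sum_subset_zero_on_sdiff
  · intro p hp
    rw [Finset.mem_filter] at hp
    rw [Finset.mem_range]
    omega
  · intro p hp
    rw [Finset.mem_sdiff, Finset.mem_filter, Finset.mem_range, Finset.mem_range] at hp
    rw [hzero p (n - p) (by
      by_contra hcon
      exact hp.2 ⟨by omega, by omega⟩)]
    simp
  · intro p _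
    rfl

end Pool.Agent.Results.MP_81a4d5_co.Multiarrangement
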